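import Pool.Agent.W819.NC.Stm
import Pool.Agent.W108.EN.LTail

/-! Exponential moments of the costs. -/

set_option autoImplicit false

namespace Pool.Agent.W440.NC
open H974 Finset
open Pool.Agent.W819.EN Pool.Agent.W819.NC Pool.Agent.W108.EN

theorem pow_le_sum (s : ℝ) (hs : 1 ≤ s) (x B : ℕ) (hx : x ≤ B) :
    s ^ x ≤ 1 + ∑ k ∈ range B, s ^ (k + 1) * ind (k < x) := by
  have hnn : ∀ k ∈ range B, 0 ≤ s ^ (k + 1) * ind (k < x) := fun k _ =>
    mul_nonneg (by positivity) (ind_nonneg _)
  cases x with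
  | zero =>
    have := sum_nonneg hnn
    simpa using this
  | succ y =>
    have h1 := single_le_sum hnn (mem_range.mpr (show y < B by omega))
    simp only [ind_of (Nat.lt_succ_self y), mul_one] at h1
    linarith

theorem t_MOM : Mom := by
  intro s ρ C hs hρ hsρ hC S X hX
  set B : ℕ := S.powerset.sup X with hB
  have h1 : Ex P2 S (fun F => s ^ X F) ≤
      Ex P2 S (fun F => 1 + ∑ k ∈ range B, s ^ (k + 1) * ind (k < X F)) := by
    refine Ex_mono okP2 fun F hF => ?_
    exact pow_le_sum s hs (X F) B (Finset.le_sup (f := X) (mem_powerset.mpr hF))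
  refine h1.trans ?_
  rw [Ex_add, Ex_const, Ex_sum]
  have h2 : ∀ k ∈ range B, Ex P2 S (fun F => s ^ (k + 1) * ind (k < X F)) ≤
      C * s * (1 / 2) ^ k := by
    intro k _
    rw [Ex_mul_left]
    have h3 : Ex P2 S (fun F => ind (k < X F)) ≤ C * ρ ^ k := hX k
    calc s ^ (k + 1) * Ex P2 S (fun F => ind (k < X F)) ≤ s ^ (k + 1) * (C * ρ ^ k) :=
          mul_le_mul_of_nonneg_left h3 (by positivity)
      _ = C * s * (s * ρ) ^ k := by rw [mul_pow]; ring
      _ ≤ C * s * (1 / 2) ^ k := by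
          apply mul_le_mul_of_nonneg_left _ (by positivity)
          exact pow_le_pow_left₀ (by positivity) hsρ k
  have h4 : ∑ k ∈ range B, ((1 : ℝ) / 2) ^ k ≤ 2 := by
    have h5 := summable_geometric_two.sum_le_tsum (range B) (fun _ _ => by positivity)
    rwa [tsum_geometric_two] at h5
  have h5 := sum_le_sum h2
  rw [← mul_sum] at h5
  have h6 : C * s * ∑ k ∈ range B, ((1 : ℝ) / 2) ^ k ≤ C * s * 2 :=
    mul_le_mul_of_nonneg_left h4 (by positivity)
  linarith

theorem t_SYS (hG : Geo NA) (hg : SysG) (hT : TailM) (hM : Mom) : Sys NA Wc Kc where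
  geo := hG
  zero := hg.zero
  incl := hg.incl
  join := hg.join
  wloc := hg.wloc
  wmom := by
    intro s hs
    have hs8 : (1 : ℝ) ≤ s ^ 8 := one_le_pow₀ hs
    obtain ⟨C, hC0, hC⟩ := hT 8 (1 / (2 * s ^ 8)) (by positivity)
    refine ⟨s ^ 2 * (1 + 2 * (4 * C) * s ^ 8), by positivity, ?_⟩
    intro v b S hb hS
    have h1 : ∀ k : ℕ, Pr P2 S (fun F => k < sInf {k | Cir v b k F}) ≤
        4 * C * (1 / (2 * s ^ 8)) ^ k := by
      intro k
      have h2 : Pr P2 S (fun F => k < sInf {k | Cir v b k F}) ≤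
          Pr P2 S (fun F => ¬ Cir v b k F) := by
        refine Pr_mono okP2 fun F _ h hc => ?_
        have h3 : sInf {k | Cir v b k F} ≤ k := Nat.sInf_le hc
        omega
      have h3 := bound_Cir (ρ := 1 / (2 * s ^ 8)) (C := C) (fun w h h1 h2 h3 k => hC w h h1 h2
        (by exact_mod_cast h3) k) v (2 * b) b hS (by exact_mod_cast hb) le_rfl k
      refine h2.trans (h3.trans (le_of_eq ?_))
      ring
    have h4 := hM (s ^ 8) (1 / (2 * s ^ 8)) (4 * C) hs8 (by positivity)
      (by apply le_of_eq; field_simp) (by positivity) S (fun F => sInf {k | Cir v b k F}) h1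
    have h5 : Ex P2 S (fun F => s ^ Wc F v b) =
        s ^ 2 * Ex P2 S (fun F => (s ^ 8) ^ sInf {k | Cir v b k F}) := by
      rw [← Ex_mul_left]
      refine Ex_congr fun F _ => ?_
      unfold Wc
      rw [pow_add, pow_mul]
    rw [h5]
    exact mul_le_mul_of_nonneg_left h4 (by positivity)
  right := hg.right
  left := hg.left
  kloc := hg.kloc
  kmom := by
    intro s hs M
    obtain ⟨C, hC0, hC⟩ := hT M (1 / (2 * s)) (by positivity)
    refine ⟨1 + 2 * C * s, by positivity, ?_⟩
    intro a b c d S h1 h2 h3 hS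
    refine hM s (1 / (2 * s)) C hs (by positivity) (by apply le_of_eq; field_simp) hC0 S _ ?_
    intro k
    have h4 : Pr P2 S (fun F => k < Kc F a b c d) ≤
        Pr P2 S (fun F => ¬ Opn k (LRE a b c d) (LRc a b c d) F) := by
      refine Pr_mono okP2 fun F _ h hc => ?_
      have h5 : Kc F a b c d ≤ k := Nat.sInf_le hc
      omega
    refine h4.trans ?_
    rw [pr_LR a b c d hS k]
    exact hC _ _ h1 (by omega) h3 k

end Pool.Agent.W440.NC
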